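import Mathlib
import Pool.Agent.Helper760.OracleSim4
import Pool.Agent.H613R2.OSimD
import Pool.Agent.H613R2.OLow

/-!
# Simulating an oracle by a finite condition: error against length
-/

set_option autoImplicit false

namespace Pool.Agent.Y596.KO

open Pool.Agent.Helper760.OracleC Pool.Agent.Helper760.Kolm Pool.Agent.H613R2.OLow
open Filter

/-- conditions with error `E n` are longer than `2 ^ (n - E n)`, up to a polynomial factor -/
theorem lowerE (E : ℕ → ℕ) (hE : ∀ᶠ n : ℕ in atTop, E n + 3 * Nat.size n + 3 ≤ n) :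
    ∃ X : ℕ → Bool, ∀ D : List Bool → List Bool →. List Bool, OptimalCond D →
      ∀ V : List Bool →. List Bool, OptimalIn X V → ∀ᶠ n : ℕ in atTop,
        ∀ y : List Bool, (∀ s : List Bool, s.length ≤ n → condC D s y ≤ oracleC V s + E n) →
          2 ^ (n - (E n + 3 * Nat.size n + 3)) < y.length := by
  classical
  obtain ⟨D0, hD0⟩ := exists_optimalCond
  -- the strings
  have hex : ∀ n : ℕ, ∃ a : ℕ → List Bool, (∀ i, (a i).length = n) ∧
      (E n + 3 * Nat.size n + 3 ≤ n →
      ∀ y : List Bool, y.length ≤ 2 ^ (n - (E n + 3 * Nat.size n + 3)) →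
        ∃ i < 2 ^ (n - (E n + 3 * Nat.size n + 3)),
          (n - (E n + 3 * Nat.size n + 3)) + (E n + 3 * Nat.size n) < condC D0 (a i) y) := by
    intro n
    by_cases h3 : E n + 3 * Nat.size n + 3 ≤ n
    · set k := n - (E n + 3 * Nat.size n + 3) with hk
      obtain ⟨a, ha1, ha2⟩ := exists_tuple hD0 n k (E n + 3 * Nat.size n) (2 ^ k) (by
        have h6 : 1 ≤ 2 ^ k := Nat.one_le_two_pow
        have h7 : n = (k + (E n + 3 * Nat.size n) + 1) + 2 := by omega
        calc 2 ^ k + 1 + (k + (E n + 3 * Nat.size n) + 1) * 2 ^ k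
            ≤ 2 * 2 ^ k + (k + (E n + 3 * Nat.size n) + 1) * 2 ^ k := by omega
          _ = ((k + (E n + 3 * Nat.size n) + 1) + 2) * 2 ^ k := by ring
          _ = n * 2 ^ k := by rw [← h7])
      exact ⟨a, ha1, fun _ => ha2⟩
    · exact ⟨fun _ => List.replicate n false, by simp, fun h => absurd h h3⟩
  choose A hA1 hA2 using hex
  refine ⟨orc A, ?_⟩
  intro D hD V hV
  -- comparison of optimal machines
  obtain ⟨c0, hc0⟩ := hD0.2 D hD.1
  have hcmp : ∀ s y, condC D0 s y ≤ condC D s y + c0 := by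
    intro s y
    obtain ⟨p, hp, hpl⟩ := condC_spec hD s y
    obtain ⟨q, hq, hql⟩ := hc0 p y s hp
    have := condC_le s y q hq
    omega
  obtain ⟨c1, hc1⟩ := exists_prog A hA1 hV
  filter_upwards [hE, eventually_ge_atTop (2 ^ (c0 + c1))] with n hn hn1 y hy
  by_contra hlen
  rw [not_lt] at hlen
  have hs1 : c0 + c1 < Nat.size n := Nat.lt_size.2 hn1
  obtain ⟨i, hi, hbig⟩ := hA2 n hn y hlen
  have h4 := hc1 n _ i hi
  have h5 := hy (A n i) (hA1 n i).le
  have h6 := hcmp (A n i) y
  omega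

end Pool.Agent.Y596.KO
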